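import Mathlib
import Pool.Agent.H820Z.Tq8

set_option autoImplicit false

open MeasureTheory ProbabilityTheory Filter Topology Set
open scoped ENNReal NNReal BoundedContinuousFunction

namespace Pool.Agent.Results.MP_db3298_pr.ADistributionMatters

/-! ### The model

Servers are `0, 1, 2 : Fin 3` (addition is cyclic). A class-`c` customer may be served by its left
server `c` or by its right server `c + 1`.  -/

/-- Workload vectors of the three servers. -/
abbrev Load := Fin 3 → ℝ

/-- Workloads after `t` time units without arrivals: each server works at unit rate while its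
workload is positive. -/
noncomputable def drain (x : Load) (t : ℝ) : Load := fun i => max (x i - t) 0

open Classical in
/-- Arrival of a customer with mark `k = (c, (l, r))`: its class is `c`, its service time is `l` if
it joins its left server `c` and `r` if it joins its right server `c + 1`. It joins the accessible
server with the smaller current workload; ties go to the right server. -/
noncomputable def join (x : Load) (k : Fin 3 × (ℝ × ℝ)) : Load :=
  if x k.1 < x (k.1 + 1) then Function.update x k.1 (x k.1 + k.2.1)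
  else Function.update x (k.1 + 1) (x (k.1 + 1) + k.2.2)

/-- Epoch of the `n`-th arrival (`arr ω 0 = 0`); `(ω n).1` is the `n`-th interarrival time and
`(ω n).2` the mark of the customer arriving at its end. -/
noncomputable def arr {K : Type*} (ω : ℕ → ℝ × K) (n : ℕ) : ℝ := ∑ k ∈ Finset.range n, (ω k).1

/-- Number of arrivals up to time `t`: the least `n` such that arrival `n + 1` comes after `t`. -/
noncomputable def count {K : Type*} (ω : ℕ → ℝ × K) (t : ℝ) : ℕ := sInf {n : ℕ | t < arr ω (n + 1)}

/-- Workload vector just after the `n`-th arrival, from the initial vector `w` at time `0`. -/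
noncomputable def after (w : Load) (ω : ℕ → ℝ × (Fin 3 × (ℝ × ℝ))) : ℕ → Load
  | 0 => w
  | n + 1 => join (drain (after w ω n) (ω n).1) (ω n).2

/-- Workload vector `W(t)` from `W(0) = w`. -/
noncomputable def workload (w : Load) (ω : ℕ → ℝ × (Fin 3 × (ℝ × ℝ))) (t : ℝ) : Load :=
  drain (after w ω (count ω t)) (t - arr ω (count ω t))

/-- Law of a mark: uniform class, independent service times with laws `Fl` (left) and `Fr` (right). -/
noncomputable def markLaw (Fl Fr : Measure ℝ) : Measure (Fin 3 × (ℝ × ℝ)) :=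
  (PMF.uniformOfFintype (Fin 3)).toMeasure.prod (Fl.prod Fr)

/-- Law of the input: i.i.d. pairs of an exponential(`lam`) interarrival time and an independent mark. -/
noncomputable def law (lam : ℝ) (Fl Fr : Measure ℝ) : Measure (ℕ → ℝ × (Fin 3 × (ℝ × ℝ))) :=
  Measure.infinitePi (fun _ => (expMeasure lam).prod (markLaw Fl Fr))

/-- Stability from `w`: the law of `W(t)` converges weakly, as `t → ∞`, to a probability measure
on the nonnegative vectors. -/
def Stable (lam : ℝ) (Fl Fr : Measure ℝ) (w : Load) : Prop :=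
  ∃ π : Measure Load, IsProbabilityMeasure π ∧ π {x | ∀ i, 0 ≤ x i} = 1 ∧
    ∀ g : Load →ᵇ ℝ, Tendsto (fun t : ℝ => ∫ ω, g (workload w ω t) ∂(law lam Fl Fr)) atTop
      (𝓝 (∫ x, g x ∂π))


open Pool.Agent.Helper52 in
theorem after_eq (w : Load) (ω : ℕ → ℝ × (Fin 3 × (ℝ × ℝ))) (n : ℕ) :
    after w ω n = Tri.gafter Tri.drain Tri.join w ω n := by
  induction n with
  | zero => rfl
  | succ n ih => simp only [after, Tri.gafter, ih]; rfl

open Pool.Agent.Helper52 in
theorem workload_eq (w : Load) (ω : ℕ → ℝ × (Fin 3 × (ℝ × ℝ))) (t : ℝ) :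
    workload w ω t = Tri.gW Tri.drain Tri.join w ω t := by
  unfold workload Tri.gW; rw [after_eq]; rfl

/-- **Q2 has a positive answer.** Take `lam = 1507/1000` and ties broken to the right. In both pairs all
left service times equal `1`. In the first pair a right service time is `1` or `5` with probability
one half each, in the second pair it equals `3`. The means agree (`1` and `3`); from `w = 0` the system is
stable under the first pair and not stable under the second. -/
theorem result :
    ∃ (lam : ℝ) (Fl Fr Fl' Fr' : Measure ℝ),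
      lam = 1507 / 1000 ∧ Fl = Measure.dirac 1 ∧
      Fr = (2⁻¹ : ℝ≥0∞) • Measure.dirac 1 + (2⁻¹ : ℝ≥0∞) • Measure.dirac 5 ∧
      Fl' = Measure.dirac 1 ∧ Fr' = Measure.dirac 3 ∧
      0 < lam ∧ IsProbabilityMeasure Fl ∧ IsProbabilityMeasure Fr ∧
      IsProbabilityMeasure Fl' ∧ IsProbabilityMeasure Fr' ∧
      Fl (Iic 0) = 0 ∧ Fr (Iic 0) = 0 ∧ Fl' (Iic 0) = 0 ∧ Fr' (Iic 0) = 0 ∧
      Integrable (fun x => x) Fl ∧ Integrable (fun x => x) Fr ∧
      Integrable (fun x => x) Fl' ∧ Integrable (fun x => x) Fr' ∧
      ∫ x, x ∂Fl = ∫ x, x ∂Fl' ∧ ∫ x, x ∂Fr = ∫ x, x ∂Fr' ∧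
      Stable lam Fl Fr 0 ∧ ¬ Stable lam Fl' Fr' 0 := by
  have hA : law (1507 / 1000) (Measure.dirac 1) (Pool.Agent.H820Z.Tq.two 1 5) =
      Pool.Agent.H820Z.Tq.PQ Pool.Agent.H820Z.Tq.lam1 Pool.Agent.H820Z.Tq.rA := rfl
  have hB : law (1507 / 1000) (Measure.dirac 1) (Measure.dirac 3) =
      Pool.Agent.H820Z.Tq.PQ Pool.Agent.H820Z.Tq.lam1 Pool.Agent.H820Z.Tq.rB := by
    rw [← Pool.Agent.H820Z.Tq.two_self 3]; rfl
  have hd : ∀ a : ℝ, 0 < a → Measure.dirac a (Iic (0:ℝ)) = 0 := by
    intro a ha
    rw [Measure.dirac_apply' _ measurableSet_Iic, indicator_of_notMem (by simpa using ha)]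
  have hi : ∀ a : ℝ, Integrable (fun x : ℝ => x) (Measure.dirac a) := fun a => integrable_dirac (by simp)
  have hi2 : ∀ a : ℝ, Integrable (fun x : ℝ => x) ((2⁻¹ : ℝ≥0∞) • Measure.dirac a) :=
    fun a => (hi a).smul_measure (by simp)
  refine ⟨1507 / 1000, Measure.dirac 1, Pool.Agent.H820Z.Tq.two 1 5, Measure.dirac 1, Measure.dirac 3,
    rfl, rfl, rfl, rfl, rfl, by norm_num, inferInstance, inferInstance, inferInstance, inferInstance,
    hd 1 one_pos, ?_, hd 1 one_pos, hd 3 (by norm_num), hi 1, (hi2 1).add_measure (hi2 5), hi 1, hi 3,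
    rfl, ?_, ?_, ?_⟩
  · unfold Pool.Agent.H820Z.Tq.two
    simp only [Measure.coe_add, Measure.coe_smul, Pi.add_apply, Pi.smul_apply, hd 1 one_pos,
      hd 5 (by norm_num), smul_zero, add_zero]
  · unfold Pool.Agent.H820Z.Tq.two
    rw [integral_add_measure (hi2 1) (hi2 5), integral_smul_measure, integral_smul_measure,
      integral_dirac, integral_dirac, integral_dirac]
    norm_num
  · obtain ⟨π, h1, h2, h3⟩ := Pool.Agent.H820Z.Tq.stableA
    refine ⟨π, h1, h2, fun g => ?_⟩
    rw [hA]
    simp only [workload_eq]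
    exact h3 g
  · rintro ⟨π, h1, h2, h3⟩
    refine Pool.Agent.H820Z.Tq.unstableB ⟨π, h1, fun g => ?_⟩
    have := h3 g
    rw [hB] at this
    simp only [workload_eq] at this
    exact this

end Pool.Agent.Results.MP_db3298_pr.ADistributionMatters
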